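import Pool.Agent.helper58.FI3.SpecF3

/-!
# Row fi3:FNC3 (MP_baa4d7_al): the contribution of one normal chain
-/

set_option autoImplicit false

namespace Pool.Agent.FI3

open Pool.Agent.helper58.DC Pool.Agent.DI Pool.Agent.GR Pool.Agent.OB Pool.Agent.DR Pool.Agent.FI

open Classical in
/-- double counting with weights -/
theorem FNC3_dc {G F : Type} [Finite G] (B : Set F) (hB : B.Finite) (R : G → F → Prop) (Gs : Set G)
    (hR : ∀ η ∈ B, ∀ g, R g η → g ∈ Gs) (c : G → ℕ) (s : F → ℕ) :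
    ∑ᶠ η ∈ B, (∑ᶠ g ∈ {g : G | R g η}, c g) * s η =
      ∑ᶠ g ∈ Gs, c g * ∑ᶠ η ∈ {η : F | η ∈ B ∧ R g η}, s η := by
  have := Fintype.ofFinite G
  rw [finsum_mem_eq_finite_toFinset_sum _ hB, finsum_mem_eq_finite_toFinset_sum _ (Set.toFinite Gs)]
  have h1 : ∀ g : G, ∑ᶠ η ∈ {η : F | η ∈ B ∧ R g η}, s η = ∑ η ∈ hB.toFinset, if R g η then s η else 0 := by
    intro g
    have hf : {η : F | η ∈ B ∧ R g η}.Finite := hB.subset fun η h => h.1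
    rw [finsum_mem_eq_finite_toFinset_sum _ hf, ← Finset.sum_filter]
    apply Finset.sum_congr _ fun _ _ => rfl
    ext η
    simp
  have h3 : ∑ g ∈ (Set.toFinite Gs).toFinset, c g * ∑ᶠ η ∈ {η : F | η ∈ B ∧ R g η}, s η =
      ∑ g ∈ (Set.toFinite Gs).toFinset, ∑ η ∈ hB.toFinset, c g * (if R g η then s η else 0) :=
    Finset.sum_congr rfl fun g _ => by rw [h1 g, Finset.mul_sum]
  rw [h3, Finset.sum_comm]
  apply Finset.sum_congr rfl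
  intro η hη
  rw [Set.Finite.mem_toFinset] at hη
  have h2 : ∑ᶠ g ∈ {g : G | R g η}, c g = ∑ g ∈ (Set.toFinite Gs).toFinset, if R g η then c g else 0 := by
    rw [finsum_mem_eq_finite_toFinset_sum _ (Set.toFinite {g : G | R g η}), ← Finset.sum_filter]
    apply Finset.sum_congr _ fun _ _ => rfl
    ext g
    simp only [Set.Finite.mem_toFinset, Set.mem_ofPred_eq, Finset.mem_filter]
    exact ⟨fun h => ⟨hR η hη g h, h⟩, fun h => h.2⟩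
  rw [h2, Finset.sum_mul]
  apply Finset.sum_congr rfl
  intro g _
  by_cases h : R g η
  · simp [h]
  · simp [h]

/-- conjugation by an element of `L` does not change the central character of `L` -/
theorem FNC3_sb {G : Type} [Group G] (M : Ideal (integralClosure ℤ ℂ)) (L : Subgroup G) (g : G)
    (hg : g ∈ L) (ψ θ : G → ℂ) (h : SB M L ψ θ) : SB M L (cjF g ψ) θ := by
  intro z hz hi
  have h1 : cc (cjF g ψ) z = cc ψ z := by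
    unfold cjF
    rw [cc_funMap]
    congr 1
    funext x
    exact hz.1 g hg x
  rw [h1]
  exact h z hz hi

/-- The characters of `C_G(Q)` over `1_Z` in `b(θ)^L` and those of `C_G(Q ^ g)` in `b(θ)`. -/
theorem FNC3_bij (hFEQ : FEQ_stmt) (hFSI : FSI_stmt) (hFKE3 : FKE3_stmt) (p : ℕ)
    (M : Ideal (integralClosure ℤ ℂ)) (hS : Setup p M)
    (G : Type) [Group G] [Finite G] (D : Subgroup G) (x : G) (θ χ : G → ℂ) (hl : Lg3 p M D x θ χ) (L Z Q : Subgroup G)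
    (hZL : ∀ z ∈ Z, ∀ l ∈ L, l * z = z * l) (hQL : cz Q ≤ L) (hZQ : Z ≤ cz Q) (g : G) (hgL : g ∈ L)
    (hg : cjS g Q ≤ D) (hQL' : cz (cjS g Q) ≤ L) :
    Set.BijOn (cjF g) {η : G → ℂ | η ∈ BZ M L θ Z (cz Q) ∧ (cjS g Q ≤ D ∧ SB M (cz (cjS g Q)) θ (cjF g η))}
      (XL M (cz (cjS g Q)) θ Z 1) := by
  have hcz : cz (cjS g Q) = cjS g (cz Q) := (hFEQ G M g g Q Q Q χ χ χ).2.1.1
  have hinv : ∀ ψ : G → ℂ, cjF g⁻¹ (cjF g ψ) = ψ := by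
    intro ψ
    rw [(hFEQ G M g⁻¹ g Q Q Q χ ψ χ).1.2.1, inv_mul_cancel]
    exact (hFEQ G M g⁻¹ g Q Q Q χ ψ χ).1.2.2.2
  have hinv' : ∀ ψ : G → ℂ, cjF g (cjF g⁻¹ ψ) = ψ := by
    intro ψ
    rw [(hFEQ G M g g⁻¹ Q Q Q χ ψ χ).1.2.1, mul_inv_cancel]
    exact (hFEQ G M g⁻¹ g Q Q Q χ ψ χ).1.2.2.2
  have hgi : g⁻¹ ∈ L := L.inv_mem hgL
  have hker : ∀ a : G, a ∈ L → ∀ η : G → ℂ, (∀ z ∈ Z, ∀ y, η (z * y) = η y) →
      ∀ z ∈ Z, ∀ y, cjF a η (z * y) = cjF a η y := by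
    intro a ha η hη z hz y
    rw [cjF_apply, cjF_apply]
    have h1 : a⁻¹ * (z * y) * a = z * (a⁻¹ * y * a) := by
      have h2 := hZL z hz a⁻¹ (L.inv_mem ha)
      calc a⁻¹ * (z * y) * a = (a⁻¹ * z) * y * a := by group
        _ = (z * a⁻¹) * y * a := by rw [h2]
        _ = z * (a⁻¹ * y * a) := by group
    rw [h1]
    exact hη z hz _
  have hZQ' : Z ≤ cz (cjS g Q) := by
    intro z hz
    rw [hcz, mem_cjS]
    have h1 : g⁻¹ * z * g = z := by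
      have h2 := hZL z hz g⁻¹ hgi
      rw [h2]
      group
    rw [h1]
    exact hZQ hz
  refine ⟨?_, ?_, ?_⟩
  · rintro η ⟨⟨hη, hη1, hη2⟩, _, hη'⟩
    have h1 : cjF g η ∈ IrrOn (cz (cjS g Q)) := by
      rw [hcz]
      exact (hFEQ G M g g Q Q (cz Q) χ η χ).2.2.2.1.1 hη
    refine ⟨⟨h1, hη'.symm⟩, ?_⟩
    have h2 := (hFKE3 G (cz (cjS g Q)) Z hZQ' (fun z hz k hk => hZL z hz k (hQL' hk)) (cjF g η) h1).2.1
      (hker g hgL η hη2)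
    exact h2
  · intro η _ η' _ h
    have h1 : cjF g⁻¹ (cjF g η) = cjF g⁻¹ (cjF g η') := congrArg _ h
    rwa [hinv, hinv] at h1
  · rintro ψ ⟨⟨hψ, hψ'⟩, hψ1⟩
    have h0 : cjF g⁻¹ ψ ∈ IrrOn (cz Q) := by
      apply (hFEQ G M g g Q Q (cz Q) χ (cjF g⁻¹ ψ) χ).2.2.2.1.2
      rw [hinv', ← hcz]
      exact hψ
    refine ⟨cjF g⁻¹ ψ, ⟨⟨h0, ?_, ?_⟩, hg, ?_⟩, hinv' ψ⟩
    · apply FNC3_sb M L g⁻¹ hgi ψ θ
      refine (hFSI p M hS G (cz (cjS g Q)) L ψ θ).1 hQL' hψ.1 (fun y hy => ?_) hψ'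
      apply hl.lo.rt.th.1
      intro hy'
      exact hy (Subgroup.centralizer_le hg hy')
    · have h2 := (hFKE3 G (cz (cjS g Q)) Z hZQ' (fun z hz k hk => hZL z hz k (hQL' hk)) ψ hψ).2.2 hψ1
      exact hker g⁻¹ hgi ψ h2
    · rw [hinv']
      exact hψ'.symm

theorem FNC3 (hFMX3 : FMX3_stmt) (hF123 : F123_stmt) (hFCQ3 : FCQ3_stmt) (hFNG3 : FNG3_stmt) (hFSQ3 : FSQ3_stmt)
    (hFZC3 : FZC3_stmt) (hFKE3 : FKE3_stmt) (hFEQ : FEQ_stmt) (hFSI : FSI_stmt) (hIF : IF_stmt) : FNC3_stmt := by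
  intro p M hS G _ _ D x θ χ hl P hP hSg C hC hne
  obtain ⟨⟨hPZ, hZY, hZD, hDL, hDp, hTL, hTD, hZp, hYD⟩, hz2, hz3, hz4, hz5, hz6, hz7⟩ :=
    hFZC3 p M hS G D x θ χ hl.lo P hP
  obtain ⟨Q, hQC, hZQ, hQp, hQL, hQmax, hQN, hNQ, hzN⟩ := hFMX3 G p (cz P) (Zc D (cz P)) C hC hne
  have hcQL : cz Q ≤ cz P := hz3 Q hZQ.le
  have hPQ : P ≤ Q := le_trans hPZ hZQ.le
  have hQN' : Q ≤ cz P ⊓ nrm C := le_inf hQL hQN
  have hcN : cz Q ≤ cz P ⊓ nrm C := le_inf hcQL hzN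
  have hNn : cz P ⊓ nrm C ≤ nz Q := le_trans inf_le_right hNQ
  have hZL : ∀ z ∈ Zc D (cz P), ∀ l ∈ cz P, l * z = z * l := fun z hz l hlL => (hz2 l hlL).1 z hz
  have hZcQ : Zc D (cz P) ≤ cz Q := by
    intro z hz
    rw [Subgroup.mem_centralizer_iff]
    intro q hq
    exact hZL z hz q (hQL hq)
  have h12 := hF123 p M hS G Q (cz P ⊓ nrm C) (cz P) (Zc D (cz P)) θ hQp hQN' hcN hNn inf_le_left hZcQ hZL
    (fun ψ hψ => (hFCQ3 p M hS G D x θ χ hl P hP hSg Q hQp hZQ (cz P ⊓ nrm C) hcN hNn ψ hψ.1 hψ.2.1).1)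
  refine ⟨?_, ?_⟩
  · have hB : (BZ M (cz P) θ (Zc D (cz P)) (cz Q)).Finite := (hIF G (cz Q)).1.subset fun ψ h => h.1
    have hGs : {g : G | g ∈ cz P ∧ ∀ R ∈ C, cjS g R ≤ D} = {g : G | g ∈ cz P ∧ cjS g Q ≤ D} := by
      ext g
      constructor
      · rintro ⟨h0, h⟩
        exact ⟨h0, h Q hQC⟩
      · rintro ⟨h0, h⟩
        exact ⟨h0, fun R hR => le_trans (Subgroup.map_mono (hQmax R hR)) h⟩
    rw [h12.1, hGs]
    have e1 : Nat.card (TT M D θ) * (Nat.card (cz Q) * ∑ᶠ ψ ∈ BZ M (cz P) θ (Zc D (cz P)) (cz Q),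
        ((cz Q).relIndex (stF (cz P ⊓ nrm C) ψ)) ^ 2) =
        ∑ᶠ η ∈ BZ M (cz P) θ (Zc D (cz P)) (cz Q),
          (∑ᶠ g ∈ {g : G | g ∈ cz P ∧ (cjS g Q ≤ D ∧ SB M (cz (cjS g Q)) θ (cjF g η))},
            Nat.card ↥(TT M D θ ⊓ cz (cjS g Q))) * ((cz Q).relIndex (stF (cz P ⊓ nrm C) η)) ^ 2 := by
      rw [← mul_assoc, finsum_mem_eq_finite_toFinset_sum _ hB, finsum_mem_eq_finite_toFinset_sum _ hB,
        Finset.mul_sum]
      apply Finset.sum_congr rfl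
      intro η hη
      rw [Set.Finite.mem_toFinset] at hη
      have h3 := hFNG3 p M hS G D x θ χ hl.lo P hP Q hQp hPQ η hη.1 hη.2.1
      rw [← h3]
    rw [e1, FNC3_dc _ hB (fun g η => g ∈ cz P ∧ (cjS g Q ≤ D ∧ SB M (cz (cjS g Q)) θ (cjF g η)))
      {g : G | g ∈ cz P ∧ cjS g Q ≤ D} (fun η _ g h => ⟨h.1, h.2.1⟩)
      (fun g => Nat.card ↥(TT M D θ ⊓ cz (cjS g Q)))]
    have hfin : {g : G | g ∈ cz P ∧ cjS g Q ≤ D}.Finite := Set.toFinite _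
    rw [mul_finsum_mem' _ _ hfin]
    apply finsum_mem_congr rfl
    rintro g ⟨hgL, hgD⟩
    have hgZ : cjS g (Zc D (cz P)) = Zc D (cz P) := (hz2 g hgL).2.1
    have hZQ' : Zc D (cz P) < cjS g Q := by
      have h4 : cjS g (Zc D (cz P)) < cjS g Q := by
        refine lt_of_le_of_ne ?_ ?_
        · exact (hFEQ G M g g (Zc D (cz P)) Q Q χ χ χ).2.1.2.2.1.2 hZQ.le
        · intro h5
          apply hZQ.ne
          apply le_antisymm hZQ.le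
          apply (hFEQ G M g g Q (Zc D (cz P)) Q χ χ χ).2.1.2.2.1.1
          rw [h5]
      rwa [hgZ] at h4
    have hcz : cz (cjS g Q) = cjS g (cz Q) := (hFEQ G M g g Q Q Q χ χ χ).2.1.1
    have hnz : nz (cjS g Q) = cjS g (nz Q) := (hFEQ G M g g Q Q Q χ χ χ).2.1.2.1
    have hQL' : cz (cjS g Q) ≤ cz P := hz3 _ hZQ'.le
    rw [← hFSQ3 p M hS G D x θ χ hl (cjS g Q) hgD (Zc D (cz P)) hZQ'.le hZY
      (fun h => hSg (cjS g Q) h hZQ') (cjS g (cz P ⊓ nrm C))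
      (by rw [hcz]; exact Subgroup.map_mono hcN) (by rw [hnz]; exact Subgroup.map_mono hNn)]
    congr 1
    have hset : {η : G → ℂ | η ∈ BZ M (cz P) θ (Zc D (cz P)) (cz Q) ∧
        (g ∈ cz P ∧ (cjS g Q ≤ D ∧ SB M (cz (cjS g Q)) θ (cjF g η)))} =
        {η : G → ℂ | η ∈ BZ M (cz P) θ (Zc D (cz P)) (cz Q) ∧
          (cjS g Q ≤ D ∧ SB M (cz (cjS g Q)) θ (cjF g η))} := by
      ext η
      exact ⟨fun h => ⟨h.1, h.2.2⟩, fun h => ⟨h.1, hgL, h.2⟩⟩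
    rw [hset]
    apply finsum_mem_eq_of_bijOn (cjF g) (FNC3_bij hFEQ hFSI hFKE3 p M hS G D x θ χ hl (cz P) (Zc D (cz P)) Q
      hZL hcQL hZcQ g hgL hgD hQL')
    intro η _
    have h8 := (hFEQ G M g g Q Q (cz P ⊓ nrm C) χ η χ).2.2.2.2.2.2.2.1
    have h9 := (hFEQ G M g g (cz Q) (stF (cz P ⊓ nrm C) η) (cz P ⊓ nrm C) χ η χ).2.2.2.2.2.2.2.2
    rw [hcz, h8, h9]
  · intro φ hφ a ha
    exact h12.2 a (fun ψ hψ =>
      ⟨(hFCQ3 p M hS G D x θ χ hl P hP hSg Q hQp hZQ (cz P ⊓ nrm C) hcN hNn ψ hψ.1 hψ.2.1).2.1,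
      (hFCQ3 p M hS G D x θ χ hl P hP hSg Q hQp hZQ (cz P ⊓ nrm C) hcN hNn ψ hψ.1 hψ.2.1).2.2 a ha⟩) φ hφ

end Pool.Agent.FI3
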